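import Mathlib
set_option autoImplicit false

namespace Pool.Agent.Results.MP_852b03_co.LargeFields

open Finset Matrix

variable {F : Type*} [Field F]

/-- the alternating matrix `u wᵀ - w uᵀ` -/
def wed {κ : Type*} (u w : κ → F) : Matrix κ κ F := vecMulVec u w - vecMulVec w u

section A
variable {κ : Type*} [Fintype κ] [DecidableEq κ]

lemma rank_add_le' (A B : Matrix κ κ F) : (A + B).rank ≤ A.rank + B.rank := by
  unfold Matrix.rank
  rw [Matrix.mulVecLin_add]
  refine le_trans (Submodule.finrank_mono (t := LinearMap.range A.mulVecLin ⊔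
    LinearMap.range B.mulVecLin) ?_) (Submodule.finrank_add_le_finrank_add_finrank _ _)
  rintro _ ⟨y, rfl⟩
  exact Submodule.add_mem_sup ⟨y, rfl⟩ ⟨y, rfl⟩

lemma rank_ker (A : Matrix κ κ F) :
    A.rank + Module.finrank F (LinearMap.ker A.mulVecLin) = Fintype.card κ := by
  have := LinearMap.finrank_range_add_finrank_ker A.mulVecLin
  rw [Module.finrank_fintype_fun_eq_card] at this
  exact this

lemma rank_neg' (A : Matrix κ κ F) : (-A).rank = A.rank := by
  have h1 := rank_ker A
  have h2 := rank_ker (-A)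
  have : LinearMap.ker (-A).mulVecLin = LinearMap.ker A.mulVecLin := by
    ext y; simp
  rw [this] at h2
  omega

lemma rank_wed (c : F) (u w : κ → F) : (c • wed u w).rank ≤ 2 := by
  have : c • wed u w = vecMulVec (c • u) w + vecMulVec (-(c • w)) u := by
    ext k l; simp [wed, vecMulVec_apply]; ring
  rw [this]
  refine (rank_add_le' _ _).trans ?_
  have h1 := rank_vecMulVec_le (c • u) w
  have h2 := rank_vecMulVec_le (-(c • w)) u
  omega

lemma congr_trick (K : Matrix κ κ F) (hK : Kᵀ = -K) (halt : ∀ y, y ⬝ᵥ (K *ᵥ y) = 0)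
    (y w : κ → F) (c : F) : (K + c • wed (K *ᵥ y) w).rank ≤ K.rank := by
  have h1 : K + c • wed (K *ᵥ y) w =
      (1 + c • vecMulVec w y) * K * (1 + c • vecMulVec y w) := by
    have hy : y ᵥ* K = -(K *ᵥ y) := by
      rw [← Matrix.mulVec_transpose, hK, Matrix.neg_mulVec]
    rw [add_mul, add_mul, one_mul, mul_add, mul_add, mul_one, mul_one]
    simp only [Matrix.smul_mul, Matrix.mul_smul, Matrix.mul_vecMulVec, Matrix.vecMulVec_mul, hy]
    have h0 : (c • vecMulVec w (-(K *ᵥ y))) *ᵥ y = 0 := by
      rw [Matrix.smul_mulVec, Matrix.vecMulVec_mulVec, neg_dotProduct, dotProduct_comm, halt,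
        neg_zero, MulOpposite.op_zero, zero_smul, smul_zero]
    rw [h0]
    ext k l
    simp [wed, vecMulVec_apply]
    ring
  rw [h1]
  exact (rank_mul_le_left _ _).trans (rank_mul_le_right _ _)

lemma line_indep (K : Matrix κ κ F) (hK : Kᵀ = -K) (halt : ∀ y, y ⬝ᵥ (K *ᵥ y) = 0)
    (x : F) (e a : κ → F) (hr : K.rank < (K + x • wed e a).rank) (α β : F) (y : κ → F)
    (h : α • e + β • a = K *ᵥ y) : α = 0 ∧ β = 0 := by
  by_contra hcon
  apply absurd hr
  rw [not_lt]
  by_cases hα : α = 0
  · have hβ : β ≠ 0 := fun hb => hcon ⟨hα, hb⟩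
    have : x • wed e a = (-(x * β⁻¹)) • wed (K *ᵥ y) e := by
      rw [← h, hα]
      ext k l
      simp [wed, vecMulVec_apply]
      field_simp
      ring
    rw [this]
    exact congr_trick K hK halt y e _
  · have : x • wed e a = (x * α⁻¹) • wed (K *ᵥ y) a := by
      rw [← h]
      ext k l
      simp [wed, vecMulVec_apply]
      field_simp
      ring
    rw [this]
    exact congr_trick K hK halt y a _

lemma wed_transpose (u w : κ → F) : (wed u w)ᵀ = - wed u w := by
  ext k l; simp [wed, vecMulVec_apply]; ring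

lemma wed_alt (u w y : κ → F) : y ⬝ᵥ (wed u w *ᵥ y) = 0 := by
  unfold wed
  rw [Matrix.sub_mulVec, Matrix.vecMulVec_mulVec, Matrix.vecMulVec_mulVec, dotProduct_sub,
    dotProduct_smul, dotProduct_smul]
  simp only [MulOpposite.smul_eq_mul_unop, MulOpposite.unop_op]
  rw [dotProduct_comm w y, dotProduct_comm u y]; ring

lemma conj_wed (P : Matrix κ κ F) (u w : κ → F) :
    P * wed u w * Pᵀ = wed (P *ᵥ u) (P *ᵥ w) := by
  unfold wed
  rw [mul_sub, sub_mul, Matrix.mul_vecMulVec, Matrix.mul_vecMulVec, Matrix.vecMulVec_mul,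
    Matrix.vecMulVec_mul, Matrix.vecMul_transpose, Matrix.vecMul_transpose]

lemma rank_mul_inj (P M : Matrix κ κ F) (h : ∀ y, P *ᵥ (M *ᵥ y) = 0 → M *ᵥ y = 0) :
    (P * M).rank = M.rank := by
  have h1 := rank_ker M
  have h2 := rank_ker (P * M)
  have : LinearMap.ker (P * M).mulVecLin = LinearMap.ker M.mulVecLin := by
    ext y
    simp only [LinearMap.mem_ker, Matrix.mulVecLin_apply]
    constructor
    · intro hy; apply h; rw [Matrix.mulVec_mulVec]; exact hy
    · intro hy; rw [← Matrix.mulVec_mulVec, hy, Matrix.mulVec_zero]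
  rw [this] at h2
  omega

/-- The rank of `∑ x_i (e_i ∧ a_i)` is at most twice the number of lines in a suitable
independent family of lines `⟨e_i, a_i⟩`. -/
lemma lines {ι : Type*} [DecidableEq ι] (x : ι → F) (s : Finset ι) :
    ∀ (e a : ι → κ → F), ∃ (m : ℕ) (f : Fin m → ι), (∀ k, f k ∈ s) ∧
      (∑ i ∈ s, x i • wed (e i) (a i)).rank ≤ 2 * m ∧
      (∀ c d : Fin m → F, ∑ k, (c k • e (f k) + d k • a (f k)) = 0 → c = 0 ∧ d = 0) := by
  induction s using Finset.induction_on with
  | empty =>
    intro e a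
    refine ⟨0, Fin.elim0, fun k => k.elim0, by simp, fun c d _ => ⟨?_, ?_⟩⟩
    · funext k; exact k.elim0
    · funext k; exact k.elim0
  | insert i s hi ih =>
    intro e a
    set K := ∑ j ∈ s, x j • wed (e j) (a j) with hKdef
    have hKT : Kᵀ = -K := by
      rw [hKdef, Matrix.transpose_sum, ← Finset.sum_neg_distrib]
      refine Finset.sum_congr rfl fun j _ => ?_
      rw [Matrix.transpose_smul, wed_transpose, smul_neg]
    have hKalt : ∀ y, y ⬝ᵥ (K *ᵥ y) = 0 := by
      intro y
      rw [hKdef, Matrix.sum_mulVec, dotProduct_sum]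
      refine Finset.sum_eq_zero fun j _ => ?_
      rw [Matrix.smul_mulVec, dotProduct_smul, wed_alt, smul_zero]
    rw [Finset.sum_insert hi, add_comm]
    by_cases hr : (K + x i • wed (e i) (a i)).rank ≤ K.rank
    · obtain ⟨m, f, hf, hm, hind⟩ := ih e a
      exact ⟨m, f, fun k => Finset.mem_insert_of_mem (hf k), hr.trans hm, hind⟩
    · push Not at hr
      have hL := line_indep K hKT hKalt (x i) (e i) (a i) hr
      obtain ⟨Q, hQ⟩ := (Submodule.span F {e i, a i}).exists_isCompl
      set P0 : (κ → F) →ₗ[F] (κ → F) := Submodule.projection Q _ hQ.symm with hP0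
      set P : Matrix κ κ F := LinearMap.toMatrix' P0 with hP
      have hPv : ∀ v, P *ᵥ v = P0 v := by
        intro v; rw [hP, ← Matrix.toLin'_apply, Matrix.toLin'_toMatrix']
      have hker : ∀ v, P *ᵥ v = 0 ↔ v ∈ Submodule.span F {e i, a i} := by
        intro v
        rw [hPv, ← LinearMap.mem_ker, hP0, Submodule.ker_projection]
      have hinj : ∀ y, P *ᵥ (K *ᵥ y) = 0 → K *ᵥ y = 0 := by
        intro y hy
        rw [hker, Submodule.mem_span_pair] at hy
        obtain ⟨α, β, h⟩ := hy
        obtain ⟨h1, h2⟩ := hL α β y h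
        rw [← h, h1, h2, zero_smul, zero_smul, add_zero]
      have hrk : (P * K * Pᵀ).rank = K.rank := by
        rw [mul_assoc]
        rw [rank_mul_inj P (K * Pᵀ) (by
          intro y hy
          rw [← Matrix.mulVec_mulVec] at hy ⊢
          exact hinj _ hy)]
        rw [← Matrix.rank_transpose, Matrix.transpose_mul, Matrix.transpose_transpose, hKT,
          Matrix.mul_neg, rank_neg', rank_mul_inj P K hinj]
      have hconj : P * K * Pᵀ = ∑ j ∈ s, x j • wed (P *ᵥ e j) (P *ᵥ a j) := by
        rw [hKdef, Finset.mul_sum, Finset.sum_mul]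
        refine Finset.sum_congr rfl fun j _ => ?_
        rw [Matrix.mul_smul, Matrix.smul_mul, conj_wed]
      obtain ⟨m, f, hf, hm, hind⟩ := ih (fun j => P *ᵥ e j) (fun j => P *ᵥ a j)
      rw [← hconj, hrk] at hm
      refine ⟨m + 1, Fin.cons i f, ?_, ?_, ?_⟩
      · intro k
        refine Fin.cases ?_ (fun k => ?_) k
        · simp
        · simp [hf k]
      · have h1 := rank_add_le' K (x i • wed (e i) (a i))
        have h2 := rank_wed (x i) (e i) (a i)
        change (K + x i • wed (e i) (a i)).rank ≤ 2 * (m + 1)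
        omega
      · intro c d hcd
        rw [Fin.sum_univ_succ] at hcd
        simp only [Fin.cons_zero, Fin.cons_succ] at hcd
        have hpe : P *ᵥ e i = 0 := (hker _).2 (Submodule.subset_span (by simp))
        have hpa : P *ᵥ a i = 0 := (hker _).2 (Submodule.subset_span (by simp))
        have h3 := congrArg (fun v => P *ᵥ v) hcd
        simp only [Matrix.mulVec_add, Matrix.mulVec_smul, hpe, hpa, smul_zero, zero_add,
          Matrix.mulVec_sum, Matrix.mulVec_zero] at h3
        obtain ⟨h4, h5⟩ := hind (fun k => c k.succ) (fun k => d k.succ) h3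
        have h4' : ∀ k : Fin m, c k.succ = 0 := fun k => congrFun h4 k
        have h5' : ∀ k : Fin m, d k.succ = 0 := fun k => congrFun h5 k
        have h6 : c 0 • e i + d 0 • a i = K *ᵥ 0 := by
          rw [Matrix.mulVec_zero, ← hcd]
          simp [h4', h5']
        obtain ⟨h7, h8⟩ := hL _ _ _ h6
        constructor
        · funext k
          refine Fin.cases h7 (fun k => h4' k) k
        · funext k
          refine Fin.cases h8 (fun k => h5' k) k

end A

section B
variable {n : ℕ}

/-- `diag(x) Aᵀ - A diag(x)` -/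
def Kx (A : Matrix (Fin n) (Fin n) F) (x : Fin n → F) : Matrix (Fin n) (Fin n) F :=
  Matrix.of fun k l => x k * A l k - A k l * x l

lemma Kx_eq_sum (A : Matrix (Fin n) (Fin n) F) (x : Fin n → F) :
    Kx A x = ∑ i, x i • wed (Pi.single i 1) (fun k => A k i) := by
  ext k l
  rw [Matrix.sum_apply]
  simp only [Matrix.smul_apply, wed, Matrix.sub_apply, vecMulVec_apply, smul_eq_mul, Kx,
    Matrix.of_apply, mul_sub]
  rw [Finset.sum_sub_distrib]
  simp [Pi.single_apply]
  ring

/-- there is a nonsingular `m × m` submatrix with disjoint row and column sets -/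
def Good (A : Matrix (Fin n) (Fin n) F) (m : ℕ) : Prop :=
  ∃ g f : Fin m → Fin n, (∀ i j, g i ≠ f j) ∧ (A.submatrix g f).det ≠ 0

lemma good_of_lines (A : Matrix (Fin n) (Fin n) F) (m : ℕ) (f : Fin m → Fin n)
    (hind : LinearIndependent F (Sum.elim (fun k => (Pi.single (f k) 1 : Fin n → F))
      (fun k => (fun j => A j (f k))))) : Good A m := by
  classical
  have hind' : ∀ c d : Fin m → F, ∑ k, (c k • (Pi.single (f k) 1 : Fin n → F) +
      d k • (fun j => A j (f k))) = 0 → c = 0 ∧ d = 0 := by
    intro c d h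
    rw [Fintype.linearIndependent_iff] at hind
    have h1 := hind (Sum.elim c d) (by
      rw [Fintype.sum_sum_type]
      simp only [Sum.elim_inl, Sum.elim_inr]
      rw [← Finset.sum_add_distrib]; exact h)
    exact ⟨funext fun k => h1 (Sum.inl k), funext fun k => h1 (Sum.inr k)⟩
  have hfinj : Function.Injective f := by
    intro k l hkl
    have h1 : (Sum.inl k : Fin m ⊕ Fin m) = Sum.inl l := by
      apply hind.injective
      simp [hkl]
    exact Sum.inl_injective h1
  set Q : Matrix {j // ∀ k, f k ≠ j} (Fin m) F := A.submatrix Subtype.val f with hQ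
  have hcol : LinearIndependent F Qᵀ.row := by
    rw [Fintype.linearIndependent_iff]
    intro g hg
    set w : Fin n → F := ∑ k, g k • (fun j => A j (f k)) with hw
    have hw0 : ∀ j, (∀ k, f k ≠ j) → w j = 0 := by
      intro j hj
      have := congrFun hg ⟨j, hj⟩
      simpa [hw, hQ, Matrix.row, Finset.sum_apply] using this
    have h1 := hind' (fun k => - w (f k)) g (by
      rw [Finset.sum_add_distrib, ← hw]
      funext j
      rw [Pi.add_apply, Finset.sum_apply, Pi.zero_apply]
      by_cases hj : ∃ l, f l = j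
      · obtain ⟨l, rfl⟩ := hj
        rw [Finset.sum_eq_single l]
        · simp
        · intro k _ hkl
          have : f l ≠ f k := fun h => hkl (hfinj h.symm)
          simp [this]
        · simp
      · push Not at hj
        rw [hw0 j hj, add_zero]
        refine Finset.sum_eq_zero fun k _ => ?_
        have : j ≠ f k := fun h => hj k h.symm
        simp [this])
    intro k
    exact congrFun h1.2 k
  have hrank : Q.rank = m := by
    rw [← Matrix.rank_transpose, hcol.rank_matrix, Fintype.card_fin]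
  obtain ⟨κ, a, ha, hsp, hli⟩ := exists_linearIndependent' F Q.row
  have : Fintype κ := Fintype.ofInjective a ha
  have hcard : Fintype.card κ = m := by
    rw [← finrank_span_eq_card hli, hsp, ← Matrix.rank_eq_finrank_span_row, hrank]
  have eq : Fin m ≃ κ := (Fintype.equivFinOfCardEq hcard).symm
  refine ⟨fun i => (a (eq i)).1, f, fun i j h => (a (eq i)).2 j h.symm, ?_⟩
  have h2 : LinearIndependent F (A.submatrix (fun i => (a (eq i)).1) f).row :=
    hli.comp eq eq.injective
  rw [Matrix.linearIndependent_rows_iff_isUnit] at h2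
  rw [Matrix.isUnit_iff_isUnit_det] at h2
  exact h2.ne_zero

lemma rank_Kx_le (A : Matrix (Fin n) (Fin n) F) (r : ℕ) (hr : ¬ Good A (r + 1)) (x : Fin n → F) :
    (Kx A x).rank ≤ 2 * r := by
  rw [Kx_eq_sum]
  obtain ⟨m, f, -, hm, hind⟩ := lines x univ (fun i => (Pi.single i 1 : Fin n → F))
    (fun i k => A k i)
  by_contra hcon
  apply hr
  have hrm : r + 1 ≤ m := by omega
  have hLI : LinearIndependent F (Sum.elim (fun k => (Pi.single (f k) 1 : Fin n → F))
      (fun k => (fun j => A j (f k)))) := by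
    rw [Fintype.linearIndependent_iff]
    intro g hg
    rw [Fintype.sum_sum_type] at hg
    simp only [Sum.elim_inl, Sum.elim_inr] at hg
    rw [← Finset.sum_add_distrib] at hg
    obtain ⟨h1, h2⟩ := hind (fun k => g (Sum.inl k)) (fun k => g (Sum.inr k)) hg
    rintro (k | k)
    · exact congrFun h1 k
    · exact congrFun h2 k
  apply good_of_lines A (r + 1) (f ∘ Fin.castLE hrm)
  have h3 := hLI.comp (Sum.map (Fin.castLE hrm) (Fin.castLE hrm))
    (Sum.map_injective.2 ⟨Fin.castLE_injective hrm, Fin.castLE_injective hrm⟩)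
  convert h3 using 1
  funext p
  rcases p with p | p <;> rfl

lemma block_det {r : ℕ} (P Q : Matrix (Fin r) (Fin r) F) (hQ : Q.det ≠ 0) :
    (Matrix.fromBlocks P Qᵀ (-Q) 0).det ≠ 0 := by
  intro h
  obtain ⟨v, hv, hv0⟩ := Matrix.exists_mulVec_eq_zero_iff.2 h
  apply hv
  have h1 : ∀ k, (Matrix.fromBlocks P Qᵀ (-Q) 0 *ᵥ v) (Sum.inr k) = 0 := fun k => by
    rw [hv0]; rfl
  have h2 : ∀ k, (Matrix.fromBlocks P Qᵀ (-Q) 0 *ᵥ v) (Sum.inl k) = 0 := fun k => by
    rw [hv0]; rfl
  rw [Matrix.fromBlocks_mulVec] at h1 h2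
  simp only [Sum.elim_inr, Sum.elim_inl, Matrix.zero_mulVec, add_zero] at h1 h2
  have h3 : Q *ᵥ (v ∘ Sum.inl) = 0 := by
    funext k
    have := h1 k
    rw [Matrix.neg_mulVec, Pi.neg_apply, neg_eq_zero] at this
    exact this
  have h4 : v ∘ Sum.inl = 0 := by
    by_contra hne
    exact hQ (Matrix.exists_mulVec_eq_zero_iff.1 ⟨_, hne, h3⟩)
  rw [h4, Matrix.mulVec_zero, zero_add] at h2
  have h5 : v ∘ Sum.inr = 0 := by
    by_contra hne
    apply hQ
    rw [← Matrix.det_transpose]
    exact Matrix.exists_mulVec_eq_zero_iff.1 ⟨_, hne, funext h2⟩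
  funext p
  rcases p with p | p
  · exact congrFun h4 p
  · exact congrFun h5 p

lemma rank_del (M : Matrix (Fin (n + 1)) (Fin (n + 1)) F) (i : Fin (n + 1)) :
    M.rank ≤ (M.submatrix i.succAbove i.succAbove).rank + 2 := by
  set E : Matrix (Fin (n + 1)) (Fin n) F :=
    Matrix.of fun j k => if j = i.succAbove k then 1 else 0 with hE
  set N : Matrix (Fin (n + 1)) (Fin (n + 1)) F := E * M.submatrix i.succAbove i.succAbove * Eᵀ
    with hN
  have hNr : N.rank ≤ (M.submatrix i.succAbove i.succAbove).rank :=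
    (rank_mul_le_left _ _).trans (rank_mul_le_right _ _)
  have hM : M = N + (vecMulVec (Pi.single i 1) (M i) +
      vecMulVec (fun j => if j = i then 0 else M j i) (Pi.single i 1)) := by
    ext j k
    rcases Fin.eq_self_or_eq_succAbove i j with rfl | ⟨j, rfl⟩
    · rcases Fin.eq_self_or_eq_succAbove j k with rfl | ⟨k, rfl⟩
      · simp [hN, hE, Matrix.mul_apply, vecMulVec_apply, Fin.ne_succAbove]
      · simp [hN, hE, Matrix.mul_apply, vecMulVec_apply, Fin.ne_succAbove]
    · rcases Fin.eq_self_or_eq_succAbove i k with rfl | ⟨k, rfl⟩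
      · simp [hN, hE, Matrix.mul_apply, vecMulVec_apply, Fin.ne_succAbove, Fin.succAbove_ne]
      · simp [hN, hE, Matrix.mul_apply, vecMulVec_apply, Fin.succAbove_ne]
  have h1 := rank_add_le' N (vecMulVec (Pi.single i 1) (M i) +
      vecMulVec (fun j => if j = i then 0 else M j i) (Pi.single i 1))
  have h2 := rank_add_le' (vecMulVec (Pi.single i (1 : F)) (M i))
    (vecMulVec (fun j => if j = i then 0 else M j i) (Pi.single i 1))
  have h3 := rank_vecMulVec_le (Pi.single i (1 : F)) (M i)
  have h4 := rank_vecMulVec_le (fun j => if j = i then 0 else M j i) (Pi.single i (1 : F))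
  rw [← hM] at h1
  omega

lemma kerdim {r : ℕ} (K : Matrix (Fin n) (Fin n) F) (h : Fin r ⊕ Fin r → Fin n)
    (hdet : (K.submatrix h h).det ≠ 0) (S : Submodule F (Fin n → F))
    (hS : ∀ φ ∈ S, K *ᵥ φ = 0) (T : Finset (Fin n)) (hT : ∀ φ ∈ S, ∀ j ∈ T, φ j = 0)
    (hdis : ∀ p, h p ∉ T) : Module.finrank F S + T.card + 2 * r ≤ n := by
  classical
  have hinj : Function.Injective h := by
    intro a b hab
    by_contra hne
    apply hdet
    apply Matrix.det_zero_of_row_eq hne
    funext c
    simp [hab]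
  set U : Finset (Fin n) := (T ∪ univ.image h)ᶜ with hU
  have hUc : U.card + (T.card + 2 * r) = n := by
    have h1 : (T ∪ univ.image h).card = T.card + 2 * r := by
      rw [Finset.card_union_of_disjoint, Finset.card_image_of_injective _ hinj]
      · simp; ring
      · rw [Finset.disjoint_left]
        intro j hj hj2
        obtain ⟨p, -, rfl⟩ := Finset.mem_image.1 hj2
        exact hdis p hj
    rw [← h1, hU, Finset.card_compl_add_card, Fintype.card_fin]
  set R : S →ₗ[F] (U → F) := (LinearMap.funLeft F F (Subtype.val : U → Fin n)).comp S.subtype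
    with hR
  have hRinj : Function.Injective R := by
    rw [← LinearMap.ker_eq_bot, LinearMap.ker_eq_bot']
    rintro ⟨φ, hφ⟩ h0
    have hUz : ∀ j ∈ U, φ j = 0 := by
      intro j hj
      exact congrFun h0 ⟨j, hj⟩
    have hTz := hT φ hφ
    have hoff : ∀ j, j ∉ univ.image h → φ j = 0 := by
      intro j hj
      by_cases hjT : j ∈ T
      · exact hTz j hjT
      · apply hUz
        rw [hU, Finset.mem_compl, Finset.mem_union]
        tauto
    have hz : (K.submatrix h h) *ᵥ (φ ∘ h) = 0 := by
      funext a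
      have h1 := congrFun (hS φ hφ) (h a)
      simp only [Matrix.mulVec, dotProduct, Pi.zero_apply] at h1 ⊢
      rw [← h1]
      simp only [Matrix.submatrix_apply, Function.comp_apply]
      rw [← Finset.sum_image (f := fun j => K (h a) j * φ j) (fun p _ q _ hpq => hinj hpq)]
      refine Finset.sum_subset (Finset.subset_univ _) fun j _ hj => ?_
      rw [hoff j hj, mul_zero]
    have h2 : φ ∘ h = 0 := by
      by_contra hne
      exact hdet (Matrix.exists_mulVec_eq_zero_iff.1 ⟨_, hne, hz⟩)
    apply Subtype.ext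
    funext j
    by_cases hj : j ∈ univ.image h
    · obtain ⟨p, -, rfl⟩ := Finset.mem_image.1 hj
      exact congrFun h2 p
    · exact hoff j hj
  have h3 := LinearMap.finrank_le_finrank_of_injective hRinj
  rw [Module.finrank_fintype_fun_eq_card, Fintype.card_coe] at h3
  omega

lemma Kx_transpose (A : Matrix (Fin n) (Fin n) F) (x : Fin n → F) :
    (Kx A x)ᵀ = - Kx A x := by
  ext k l; simp [Kx]; ring

/-- At a point of maximal rank, two kernel vectors are proportional on each line. -/
lemma star {r : ℕ} (A : Matrix (Fin n) (Fin n) F) (hr : ¬ Good A (r + 1)) (x : Fin n → F)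
    (hge : 2 * r ≤ (Kx A x).rank) (i : Fin n) (φ ψ : Fin n → F) (hφ : Kx A x *ᵥ φ = 0)
    (hψ : Kx A x *ᵥ ψ = 0) :
    φ i * (ψ ⬝ᵥ fun k => A k i) = (φ ⬝ᵥ fun k => A k i) * ψ i := by
  by_contra hne
  set K := Kx A x with hK
  set a : Fin n → F := fun k => A k i with ha
  set D : Matrix (Fin n) (Fin n) F := wed (Pi.single i 1) a with hD
  have hKD : Kx A (x + Pi.single i 1) = K + D := by
    ext k l
    simp only [Kx, hK, hD, wed, Matrix.of_apply, Matrix.add_apply, Matrix.sub_apply,
      vecMulVec_apply, Pi.add_apply, ha]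
    by_cases h1 : k = i
    · subst h1
      by_cases h2 : l = k
      · subst h2; simp; ring
      · simp [h2]; ring
    · by_cases h2 : l = i
      · subst h2; simp [h1]; ring
      · simp [h1, h2]
  have hDz : ∀ z, D *ᵥ z = (a ⬝ᵥ z) • (Pi.single i 1 : Fin n → F) - (z i) • a := by
    intro z
    rw [hD, wed, Matrix.sub_mulVec, Matrix.vecMulVec_mulVec, Matrix.vecMulVec_mulVec]
    simp
  have hpair : ∀ θ, K *ᵥ θ = 0 → ∀ z, (K + D) *ᵥ z = 0 →
      (a ⬝ᵥ z) * θ i = z i * (θ ⬝ᵥ a) := by
    intro θ hθ z hz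
    rw [Matrix.add_mulVec] at hz
    have h1 : θ ⬝ᵥ (K *ᵥ z) = 0 := by
      rw [Matrix.dotProduct_mulVec, ← Matrix.mulVec_transpose, hK, Kx_transpose,
        Matrix.neg_mulVec, ← hK, hθ, neg_zero, zero_dotProduct]
    have h2 := congrArg (fun w => θ ⬝ᵥ w) hz
    simp only [dotProduct_add, h1, zero_add, dotProduct_zero, hDz, dotProduct_sub,
      dotProduct_smul, smul_eq_mul, dotProduct_single, mul_one] at h2
    linear_combination h2
  have hzero : ∀ z, (K + D) *ᵥ z = 0 → a ⬝ᵥ z = 0 ∧ z i = 0 := by
    intro z hz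
    have e1 := hpair φ hφ z hz
    have e2 := hpair ψ hψ z hz
    have hΔ : φ i * (ψ ⬝ᵥ a) - (φ ⬝ᵥ a) * ψ i ≠ 0 := sub_ne_zero.2 hne
    constructor
    · have : (a ⬝ᵥ z) * (φ i * (ψ ⬝ᵥ a) - (φ ⬝ᵥ a) * ψ i) = 0 := by
        linear_combination (ψ ⬝ᵥ a) * e1 - (φ ⬝ᵥ a) * e2
      exact (mul_eq_zero.1 this).resolve_right hΔ
    · have : z i * (φ i * (ψ ⬝ᵥ a) - (φ ⬝ᵥ a) * ψ i) = 0 := by
        linear_combination (ψ i) * e1 - (φ i) * e2
      exact (mul_eq_zero.1 this).resolve_right hΔ
  have hlt : LinearMap.ker (K + D).mulVecLin < LinearMap.ker K.mulVecLin := by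
    refine lt_of_le_of_ne ?_ ?_
    · intro z hz
      rw [LinearMap.mem_ker, Matrix.mulVecLin_apply] at hz ⊢
      obtain ⟨h1, h2⟩ := hzero z hz
      have h3 := hDz z
      rw [h1, h2, zero_smul, zero_smul, sub_zero] at h3
      rw [Matrix.add_mulVec, h3, add_zero] at hz
      exact hz
    · intro heq
      have hψ' : ψ ∈ LinearMap.ker (K + D).mulVecLin := by
        rw [heq, LinearMap.mem_ker, Matrix.mulVecLin_apply]; exact hψ
      rw [LinearMap.mem_ker, Matrix.mulVecLin_apply] at hψ'
      obtain ⟨h1, h2⟩ := hzero ψ hψ'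
      apply hne
      rw [h2, dotProduct_comm, h1, mul_zero, mul_zero]
  have h4 := Submodule.finrank_lt_finrank_of_lt hlt
  have h5 := rank_ker K
  have h6 := rank_ker (K + D)
  have h7 := rank_Kx_le A r hr (x + Pi.single i 1)
  rw [hKD] at h7
  omega

/-- The square case over a field with more than `n^2` elements. -/
theorem core (S : Finset F) : ∀ (n : ℕ), n ^ 2 < S.card →
    ∀ (A : Matrix (Fin n) (Fin n) F) (r : ℕ),
    ¬ Good A (r + 1) → ∃ v : Fin n → F, (A + Matrix.diagonal v).rank ≤ 2 * r := by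
  classical
  intro n
  induction n with
  | zero =>
    intro _ A r _
    refine ⟨0, ?_⟩
    have := (A + Matrix.diagonal (0 : Fin 0 → F)).rank_le_card_width
    rw [Fintype.card_fin] at this
    omega
  | succ n ih =>
    intro hScard A r hr
    have hScard' : n ^ 2 < S.card := lt_of_le_of_lt (Nat.pow_le_pow_left (Nat.le_succ n) 2) hScard
    by_cases hdel : ∃ i : Fin (n + 1), ∃ r', r = r' + 1 ∧
        ¬ Good (A.submatrix i.succAbove i.succAbove) (r' + 1)
    · obtain ⟨i, r', rfl, hG⟩ := hdel
      obtain ⟨v', hv'⟩ := ih hScard' _ r' hG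
      refine ⟨i.insertNth (0 : F) v', ?_⟩
      have h1 := rank_del (A + Matrix.diagonal (i.insertNth (0 : F) v' : Fin (n + 1) → F)) i
      have h2 : (A + Matrix.diagonal (i.insertNth (0 : F) v' : Fin (n + 1) → F)).submatrix
          i.succAbove i.succAbove = A.submatrix i.succAbove i.succAbove + Matrix.diagonal v' := by
        ext k l
        simp [Matrix.diagonal_apply]
      rw [h2] at h1
      omega
    · have hgood : ∀ i : Fin (n + 1), Good (A.submatrix i.succAbove i.succAbove) r := by
        intro i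
        rcases Nat.eq_zero_or_pos r with h0 | h0
        · subst h0
          exact ⟨Fin.elim0, Fin.elim0, fun i => i.elim0, by simp⟩
        · obtain ⟨r', rfl⟩ : ∃ r', r = r' + 1 := ⟨r - 1, by omega⟩
          by_contra hG
          exact hdel ⟨i, r', rfl, hG⟩
      choose g f hgf hdet using hgood
      set h : Fin (n + 1) → Fin r ⊕ Fin r → Fin (n + 1) := fun i =>
        Sum.elim (fun k => i.succAbove (f i k)) (fun k => i.succAbove (g i k)) with hh
      have hhi : ∀ i p, h i p ≠ i := by
        intro i p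
        rcases p with p | p
        · exact Fin.succAbove_ne _ _
        · exact Fin.succAbove_ne _ _
      set p : Fin (n + 1) → MvPolynomial (Fin (n + 1)) F := fun i =>
        (Matrix.of fun a b : Fin r ⊕ Fin r =>
          MvPolynomial.X (h i a) * MvPolynomial.C (A (h i b) (h i a)) -
            MvPolynomial.C (A (h i a) (h i b)) * MvPolynomial.X (h i b)).det with hp
      have heval : ∀ i x, MvPolynomial.eval x (p i) =
          ((Kx A x).submatrix (h i) (h i)).det := by
        intro i x
        rw [hp]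
        simp only
        rw [RingHom.map_det]
        congr 1
        ext a b
        simp [Kx]
      have hpne : ∀ i, p i ≠ 0 := by
        intro i h0
        set x0 : Fin (n + 1) → F := fun j => if ∃ k, i.succAbove (f i k) = j then 1 else 0
          with hx0
        have h1 := heval i x0
        rw [h0, map_zero] at h1
        have hx1 : ∀ k, x0 (i.succAbove (f i k)) = 1 := by
          intro k; rw [hx0]; simp only; rw [if_pos ⟨k, rfl⟩]
        have hx2 : ∀ k, x0 (i.succAbove (g i k)) = 0 := by
          intro k; rw [hx0]; simp only; rw [if_neg]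
          rintro ⟨l, hl⟩
          exact hgf i k l (Fin.succAbove_right_injective hl).symm
        set Q : Matrix (Fin r) (Fin r) F :=
          (A.submatrix i.succAbove i.succAbove).submatrix (g i) (f i) with hQ
        have h2 : (Kx A x0).submatrix (h i) (h i) = Matrix.fromBlocks
            (((Kx A x0).submatrix (h i) (h i)).toBlocks₁₁) Qᵀ (-Q) 0 := by
          ext a b
          rcases a with a | a <;> rcases b with b | b
          · simp [Matrix.toBlocks₁₁]
          · simp [Kx, hh, hQ, hx1, hx2]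
          · simp [Kx, hh, hQ, hx1, hx2]
          · simp [Kx, hh, hx2]
        apply block_det (((Kx A x0).submatrix (h i) (h i)).toBlocks₁₁) Q (hdet i)
        rw [← h2]; exact h1.symm
      have hinj : ∀ i, Function.Injective (h i) := by
        intro i a b hab
        by_contra hne
        apply hpne i
        rw [hp]
        simp only
        apply Matrix.det_zero_of_row_eq hne
        funext c
        simp [hab]
      have h2r : 2 * r ≤ n + 1 := by
        have := Fintype.card_le_of_injective (h 0) (hinj 0)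
        rw [Fintype.card_sum, Fintype.card_fin, Fintype.card_fin] at this
        omega
      have hentry : ∀ i j a b, MvPolynomial.degreeOf j
          (MvPolynomial.X (h i a) * MvPolynomial.C (A (h i b) (h i a)) -
            MvPolynomial.C (A (h i a) (h i b)) * MvPolynomial.X (h i b)) ≤ 1 := by
        intro i j a b
        have hX : ∀ k : Fin (n + 1),
            MvPolynomial.degreeOf j (MvPolynomial.X k : MvPolynomial (Fin (n + 1)) F) ≤ 1 := by
          intro k
          rw [MvPolynomial.degreeOf_X]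
          split_ifs <;> omega
        refine (MvPolynomial.degreeOf_sub_le _ _ _).trans (max_le ?_ ?_)
        · exact (MvPolynomial.degreeOf_mul_C_le _ _ _).trans (hX _)
        · exact (MvPolynomial.degreeOf_C_mul_le _ _ _).trans (hX _)
      have hpi : ∀ i j, MvPolynomial.degreeOf j (p i) ≤ 2 * r := by
        intro i j
        rw [hp]
        simp only
        rw [Matrix.det_apply']
        refine (MvPolynomial.degreeOf_sum_le _ _ _).trans (Finset.sup_le fun σ _ => ?_)
        have hc : (((Equiv.Perm.sign σ : ℤˣ) : ℤ) : MvPolynomial (Fin (n + 1)) F) =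
            MvPolynomial.C (((Equiv.Perm.sign σ : ℤˣ) : ℤ) : F) := by
          rw [map_intCast]
        rw [hc]
        refine (MvPolynomial.degreeOf_C_mul_le _ _ _).trans ?_
        refine (MvPolynomial.degreeOf_prod_le _ _ _).trans ?_
        calc ∑ a : Fin r ⊕ Fin r, MvPolynomial.degreeOf j
              ((Matrix.of fun a b : Fin r ⊕ Fin r =>
                MvPolynomial.X (h i a) * MvPolynomial.C (A (h i b) (h i a)) -
                MvPolynomial.C (A (h i a) (h i b)) * MvPolynomial.X (h i b)) (σ a) a)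
            ≤ ∑ a : Fin r ⊕ Fin r, 1 := Finset.sum_le_sum fun a _ => by
              rw [Matrix.of_apply]; exact hentry i j _ _
          _ = 2 * r := by simp; ring
      obtain ⟨x, hx⟩ : ∃ x : Fin (n + 1) → F, MvPolynomial.eval x (∏ i, p i) ≠ 0 := by
        by_contra hcon
        push Not at hcon
        have : ∏ i, p i = 0 := by
          apply MvPolynomial.eq_zero_of_eval_zero_at_prod_finset _ (fun _ => S)
          · intro j
            have h1 := MvPolynomial.degreeOf_prod_le j univ p
            have h2 : ∑ i, MvPolynomial.degreeOf j (p i) ≤ (n + 1) * (2 * r) := by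
              calc ∑ i, MvPolynomial.degreeOf j (p i) ≤ ∑ _i : Fin (n + 1), 2 * r :=
                    Finset.sum_le_sum fun i _ => hpi i j
                _ = (n + 1) * (2 * r) := by simp
            have h3 : (n + 1) * (2 * r) ≤ (n + 1) * (n + 1) := Nat.mul_le_mul_left _ h2r
            have h4 : (n + 1) * (n + 1) = (n + 1) ^ 2 := by ring
            omega
          · intro x _
            exact hcon x
        exact (Finset.prod_ne_zero_iff.2 fun i _ => hpne i) this
      rw [map_prod, Finset.prod_ne_zero_iff] at hx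
      have hdetx : ∀ i, ((Kx A x).submatrix (h i) (h i)).det ≠ 0 := by
        intro i; rw [← heval]; exact hx i (mem_univ i)
      set K := Kx A x with hK
      have hle := rank_Kx_le A r hr x
      rw [← hK] at hle
      have hrk := rank_ker K
      rw [Fintype.card_fin] at hrk
      have hge : 2 * r ≤ K.rank := by
        have := kerdim K (h 0) (hdetx 0) (LinearMap.ker K.mulVecLin)
          (fun φ hφ => by simpa using hφ) ∅ (by simp) (by simp)
        simp only [Finset.card_empty, add_zero] at this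
        omega
      have hex : ∀ i, ∃ φ, K *ᵥ φ = 0 ∧ φ i ≠ 0 := by
        intro i
        by_contra hcon
        push Not at hcon
        have := kerdim K (h i) (hdetx i) (LinearMap.ker K.mulVecLin)
          (fun φ hφ => by simpa using hφ) {i}
          (fun φ hφ j hj => by
            rw [Finset.mem_singleton] at hj
            subst hj
            exact hcon φ (by simpa using hφ))
          (fun q hq => hhi i q (Finset.mem_singleton.1 hq))
        rw [Finset.card_singleton] at this
        omega
      choose φ hφ0 hφi using hex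
      refine ⟨fun i => -(φ i ⬝ᵥ fun k => A k i) / φ i i, ?_⟩
      set B := A + Matrix.diagonal (fun i => -(φ i ⬝ᵥ fun k => A k i) / φ i i) with hB
      have hkerle : LinearMap.ker K.mulVecLin ≤ LinearMap.ker (Bᵀ).mulVecLin := by
        intro ψ hψ
        rw [LinearMap.mem_ker, Matrix.mulVecLin_apply] at hψ ⊢
        funext i
        have h1 := star A hr x hge i (φ i) ψ (hφ0 i) hψ
        have h2 : (Bᵀ *ᵥ ψ) i = (ψ ⬝ᵥ fun k => A k i) +
            (-(φ i ⬝ᵥ fun k => A k i) / φ i i) * ψ i := by
          rw [hB, Matrix.transpose_add, Matrix.add_mulVec, Matrix.diagonal_transpose, Pi.add_apply,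
            Matrix.mulVec_diagonal]
          congr 1
          simp only [Matrix.mulVec, dotProduct, Matrix.transpose_apply]
          exact Finset.sum_congr rfl fun k _ => mul_comm _ _
        rw [h2, Pi.zero_apply]
        have h3 := hφi i
        field_simp
        linear_combination h1
      have h4 := Submodule.finrank_mono hkerle
      have h5 := rank_ker (Bᵀ)
      rw [Fintype.card_fin, Matrix.rank_transpose] at h5
      omega

end B

/-! ### Matrices indexed by finite subsets of `ℕ` -/

section Final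

/-- The essential rank of `A : Q₁ × Q₂ → F`: the least rank of `A + V` over all `V` supported on the
diagonal positions `(x,x)`, `x ∈ Q₁ ∩ Q₂`. -/
noncomputable def erk {Q₁ Q₂ : Finset ℕ} (A : Matrix Q₁ Q₂ F) : ℕ :=
  sInf {k : ℕ | ∃ V : Matrix Q₁ Q₂ F,
    (∀ (i : Q₁) (j : Q₂), (i : ℕ) ≠ (j : ℕ) → V i j = 0) ∧ (A + V).rank = k}

/-- The disjoint rank of `A : Q₁ × Q₂ → F`: the largest rank of `A(X₁ × X₂)` over all
`X₁ ⊆ Q₁`, `X₂ ⊆ Q₂` with `X₁ ∩ X₂ = ∅`. -/
noncomputable def drk {Q₁ Q₂ : Finset ℕ} (A : Matrix Q₁ Q₂ F) : ℕ :=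
  sSup {k : ℕ | ∃ (X₁ : Finset Q₁) (X₂ : Finset Q₂), (∀ i ∈ X₁, ∀ j ∈ X₂, (i : ℕ) ≠ (j : ℕ)) ∧
    (A.submatrix (Subtype.val : X₁ → Q₁) (Subtype.val : X₂ → Q₂)).rank = k}

lemma le_drk {Q₁ Q₂ : Finset ℕ} (A : Matrix Q₁ Q₂ F) (X₁ : Finset Q₁) (X₂ : Finset Q₂)
    (h : ∀ i ∈ X₁, ∀ j ∈ X₂, (i : ℕ) ≠ (j : ℕ)) :
    (A.submatrix (Subtype.val : X₁ → Q₁) (Subtype.val : X₂ → Q₂)).rank ≤ drk A := by
  apply le_csSup
  · refine ⟨Q₂.card, ?_⟩
    rintro k ⟨Y₁, Y₂, -, rfl⟩
    refine (Matrix.rank_le_card_width _).trans ?_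
    rw [Fintype.card_coe]
    have := Finset.card_le_univ Y₂
    rwa [Fintype.card_coe] at this
  · exact ⟨X₁, X₂, h, rfl⟩

/-- **Main theorem.** Let `F` be a field that is infinite or has more than `|Q₁ ∪ Q₂|²` elements.
Then `drk A ≥ erk A / 2` for every matrix `A : Q₁ × Q₂ → F`. -/
theorem result {F : Type*} [Field F] (Q₁ Q₂ : Finset ℕ)
    (hF : Infinite F ∨ (Q₁ ∪ Q₂).card ^ 2 < Nat.card F) (A : Matrix Q₁ Q₂ F) :
    erk A ≤ 2 * drk A := by
  classical
  obtain ⟨S, hS⟩ : ∃ S : Finset F, (Q₁ ∪ Q₂).card ^ 2 < S.card := by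
    rcases hF with hF | hF
    · obtain ⟨S, hS⟩ := Infinite.exists_subset_card_eq F ((Q₁ ∪ Q₂).card ^ 2 + 1)
      exact ⟨S, by omega⟩
    · have : Finite F := Nat.finite_of_card_ne_zero (by omega)
      have := Fintype.ofFinite F
      exact ⟨univ, by rwa [Finset.card_univ, ← Nat.card_eq_fintype_card]⟩
  set N := (Q₁ ∪ Q₂).card with hN
  set e : (Q₁ ∪ Q₂ : Finset ℕ) ≃ Fin N := (Q₁ ∪ Q₂).equivFin with he
  set A' : Matrix (Fin N) (Fin N) F := Matrix.of fun i j =>
    if h : (e.symm i : ℕ) ∈ Q₁ ∧ (e.symm j : ℕ) ∈ Q₂ then A ⟨e.symm i, h.1⟩ ⟨e.symm j, h.2⟩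
    else 0 with hA'
  have hbad : ¬ Good A' (drk A + 1) := by
    rintro ⟨g, f, hgf, hdet⟩
    have hg : ∀ i, (e.symm (g i) : ℕ) ∈ Q₁ := by
      intro i
      by_contra hi
      apply hdet
      apply Matrix.det_eq_zero_of_row_eq_zero i
      intro j
      simp [hA', hi]
    have hf : ∀ j, (e.symm (f j) : ℕ) ∈ Q₂ := by
      intro j
      by_contra hj
      apply hdet
      apply Matrix.det_eq_zero_of_column_eq_zero j
      intro i
      simp [hA', hj]
    set X₁ : Finset Q₁ := univ.image fun i => (⟨e.symm (g i), hg i⟩ : Q₁) with hX₁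
    set X₂ : Finset Q₂ := univ.image fun j => (⟨e.symm (f j), hf j⟩ : Q₂) with hX₂
    have h1 := le_drk A X₁ X₂ (by
      intro i hi j hj
      obtain ⟨k, -, rfl⟩ := Finset.mem_image.1 hi
      obtain ⟨l, -, rfl⟩ := Finset.mem_image.1 hj
      intro h
      exact hgf k l (e.symm.injective (Subtype.ext h)))
    have h2 : A'.submatrix g f =
        (A.submatrix (Subtype.val : X₁ → Q₁) (Subtype.val : X₂ → Q₂)).submatrix
          (fun i => ⟨⟨e.symm (g i), hg i⟩, Finset.mem_image_of_mem _ (mem_univ i)⟩)
          (fun j => ⟨⟨e.symm (f j), hf j⟩, Finset.mem_image_of_mem _ (mem_univ j)⟩) := by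
      ext i j
      simp [hA', hg, hf]
    have h3 : (A'.submatrix g f).rank = drk A + 1 := by
      rw [Matrix.rank_of_det_ne_zero hdet, Fintype.card_fin]
    have h4 := Matrix.rank_submatrix_le
      (A.submatrix (Subtype.val : X₁ → Q₁) (Subtype.val : X₂ → Q₂))
      (fun i => ⟨⟨e.symm (g i), hg i⟩, Finset.mem_image_of_mem _ (mem_univ i)⟩)
      (fun j => ⟨⟨e.symm (f j), hf j⟩, Finset.mem_image_of_mem _ (mem_univ j)⟩)
    rw [← h2] at h4
    omega
  obtain ⟨v, hv⟩ := core S N hS A' (drk A) hbad
  set ι₁ : Q₁ → Fin N := fun i => e ⟨i, Finset.mem_union_left _ i.2⟩ with hι₁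
  set ι₂ : Q₂ → Fin N := fun j => e ⟨j, Finset.mem_union_right _ j.2⟩ with hι₂
  have h5 : A + Matrix.of (fun (i : Q₁) (j : Q₂) => if (i : ℕ) = (j : ℕ) then v (ι₁ i) else 0) =
      (A' + Matrix.diagonal v).submatrix ι₁ ι₂ := by
    ext i j
    have h7 : A' (ι₁ i) (ι₂ j) = A i j := by simp [hA', hι₁, hι₂]
    have h8 : Matrix.diagonal v (ι₁ i) (ι₂ j) = if (i : ℕ) = (j : ℕ) then v (ι₁ i) else 0 := by
      rw [Matrix.diagonal_apply]
      exact if_congr (e.injective.eq_iff.trans Subtype.ext_iff) rfl rfl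
    rw [Matrix.submatrix_apply, Matrix.add_apply, Matrix.add_apply, h7, h8, Matrix.of_apply]
  have h6 : erk A ≤ (A + Matrix.of (fun (i : Q₁) (j : Q₂) =>
      if (i : ℕ) = (j : ℕ) then v (ι₁ i) else 0)).rank := by
    apply Nat.sInf_le
    refine ⟨_, ?_, rfl⟩
    intro i j hij
    rw [Matrix.of_apply, if_neg hij]
  rw [h5] at h6
  exact h6.trans ((Matrix.rank_submatrix_le _ _ _).trans hv)

end Final

end Pool.Agent.Results.MP_852b03_co.LargeFields
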